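import Pool.Agent.Q231.RS.Zeta
import Mathlib.Probability.Independence.InfinitePi

/-!
# The recipe for all shifted moments of zeta and random samples with `T^δ` points

Let `R_{k,α,β}(T)` be complex numbers (the main terms of the problem: the integrals of `Q_k(t; α, β)` over `[0, T]`), with
`R_{k,0,0}(T) = O(T^(1+ε))`. We show that the asymptotic formulas with power saving of the problem, for all `k`, `α`, `β`, hold
if and only if for all `k`, `α`, `β` and `δ > 0` there is `η > 0` such that the mean of `Z_{α,β}` over any `N ≥ T^δ` pairwise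
independent uniform random points of `[0, T]` differs from `R_{k,α,β}(T) / T` by less than `T^(-η)`, outside an event of
probability at most `T^(-η)`; and it is enough to know this for one exponent `δ > 1` and `N = ⌈T^δ⌉`.

Proof. Each of the three statements implies the Lindelöf hypothesis: a value `|ζ(1/2 + it)| ≥ t^ε` persists on a set of
positive measure near `t` (starting library), which contradicts the size of high unshifted moments. Under the Lindelöf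
hypothesis the mean over the sample and the mean over `[0, T]` are close, by Chebyshev's inequality.
-/

set_option autoImplicit false

open MeasureTheory ProbabilityTheory Filter Topology Set

namespace Pool.Agent.Results.MP_fa2474_nt.AllShiftsSampled

/-- `Z_{α,β}(t)` of the problem -/
noncomputable def Z {k : ℕ} (α β : Fin k → ℝ) (t : ℝ) : ℂ :=
  ∏ j, riemannZeta (1 / 2 + (t + α j) * Complex.I) * riemannZeta (1 / 2 - (t + β j) * Complex.I)

/-- the mean over the sample `v_1, ..., v_N` -/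
noncomputable def D {k : ℕ} (α β : Fin k → ℝ) {N : ℕ} (v : Fin N → ℝ) : ℂ := (∑ j, Z α β (v j)) / N

/-- `V_1, ..., V_N` are pairwise independent and each is uniformly distributed on `[0, T]`. -/
def Points {Ω : Type} [MeasurableSpace Ω] (P : Measure Ω) (T : ℝ) {N : ℕ} (V : Fin N → Ω → ℝ) : Prop :=
  (∀ j, Measurable (V j) ∧ P.map (V j) = (ENNReal.ofReal T)⁻¹ • volume.restrict (Icc 0 T)) ∧
    Pairwise fun j l => IndepFun (V j) (V l) P

/-- For all pairwise independent uniform random points `V_1, ..., V_N` of `[0, T]` the mean of `Z_{α,β}` over the sample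
differs from `m` by less than `T^(-η)` outside an event of probability at most `T^(-η)`. -/
def Sampled {k : ℕ} (α β : Fin k → ℝ) (m : ℂ) (η T : ℝ) (N : ℕ) : Prop :=
  ∀ (Ω : Type) [MeasurableSpace Ω] (P : Measure Ω) [IsProbabilityMeasure P] (V : Fin N → Ω → ℝ), Points P T V →
    P {ω | T ^ (-η) ≤ ‖D α β (fun j => V j ω) - m‖} ≤ ENNReal.ofReal (T ^ (-η))

/-- the main terms: for each `k`, shifts `α`, `β` and `T` a complex number -/
abbrev MainTerms := ∀ k : ℕ, (Fin k → ℝ) → (Fin k → ℝ) → ℝ → ℂ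

section proofs

open Pool.Agent.H983R4.LH

/-- `|ζ(1/2 + it)|` -/
noncomputable def z (t : ℝ) : ℝ := ‖riemannZeta (1 / 2 + t * Complex.I)‖

lemma z_cont : Continuous z := zeta_line_cont.norm

lemma z_nonneg (t : ℝ) : 0 ≤ z t := norm_nonneg _

/-- large values persist -/
lemma zlarge (h : ¬ Adm 0) : ∃ κ δ₀ : ℝ, 0 < κ ∧ 0 < δ₀ ∧ ∀ R : ℝ, ∃ t : ℝ, R < t ∧ 8 ≤ t ∧
    ENNReal.ofReal δ₀ ≤ volume {x : ℝ | |x - t| ≤ 1 ∧ t ^ κ ≤ z x} := by
  obtain ⟨ε, hε, hbig⟩ := Pool.Agent.Q231.RS.large_of_not h le_rfl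
  rw [zero_add] at hbig
  obtain ⟨δ, hδ, T₀, h8, hper⟩ := main_local (κ := ε / 2) (μ := ε) (by positivity) (by linarith)
  refine ⟨ε / 2, δ, by positivity, hδ, fun R => ?_⟩
  obtain ⟨T, hT, hZ⟩ := hbig (max R T₀)
  refine ⟨T, lt_of_le_of_lt (le_max_left _ _) hT, h8.trans ((le_max_right R T₀).trans hT.le), ?_⟩
  have h4 := hper T ((le_max_right R T₀).trans hT.le) 1 one_pos le_rfl hZ
  rw [mul_one] at h4
  refine h4.le.trans (measure_mono ?_)
  rintro x ⟨hx1, hx2⟩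
  exact ⟨hx1, hx2.le⟩

lemma low {f : ℝ → ℝ} (hf : Continuous f) (hf0 : ∀ x, 0 ≤ f x) {T : ℝ} (hT : 0 < T) {y : ℝ} (hy : 0 ≤ y)
    {S : Set ℝ} (hS : S ⊆ {x | y ≤ f x} ∩ Icc 0 T) {a : ℝ} (ha : ENNReal.ofReal a ≤ volume S) :
    y * a ≤ ∫ x in (0 : ℝ)..T, f x := by
  rw [intervalIntegral.integral_of_le hT.le, ← integral_Icc_eq_integral_Ioc]
  have h1 := mul_meas_ge_le_integral_of_nonneg (μ := volume.restrict (Icc 0 T)) (f := f)
    (Eventually.of_forall hf0) (hf.integrableOn_Icc) y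
  refine le_trans (mul_le_mul_of_nonneg_left ?_ hy) h1
  have h2 : MeasurableSet {x | y ≤ f x} := measurableSet_le measurable_const hf.measurable
  have h3 : ENNReal.ofReal a ≤ (volume.restrict (Icc 0 T)) {x | y ≤ f x} := by
    rw [Measure.restrict_apply h2]
    exact ha.trans (measure_mono hS)
  exact (ENNReal.ofReal_le_iff_le_toReal (measure_ne_top _ _)).1 h3


lemma zp_cont (a : ℝ) : Continuous fun t : ℝ => riemannZeta (1 / 2 + (t + a) * Complex.I) := by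
  have h := zeta_line_cont.comp (show Continuous fun t : ℝ => t + a by fun_prop)
  have e : (fun t : ℝ => riemannZeta (1 / 2 + (t + a) * Complex.I)) =
      (fun t : ℝ => riemannZeta (1 / 2 + t * Complex.I)) ∘ fun t : ℝ => t + a := by
    funext t
    simp
  rw [e]
  exact h

lemma zm_eq (a t : ℝ) : riemannZeta (1 / 2 - (t + a) * Complex.I) =
    riemannZeta (1 / 2 + (((-(t + a) : ℝ)) : ℂ) * Complex.I) := by
  congr 1
  push_cast
  ring

lemma zm_cont (a : ℝ) : Continuous fun t : ℝ => riemannZeta (1 / 2 - (t + a) * Complex.I) := by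
  have h := zeta_line_cont.comp (show Continuous fun t : ℝ => -(t + a) by fun_prop)
  have e : (fun t : ℝ => riemannZeta (1 / 2 - (t + a) * Complex.I)) =
      (fun t : ℝ => riemannZeta (1 / 2 + t * Complex.I)) ∘ fun t : ℝ => -(t + a) := by
    funext t
    exact zm_eq a t
  rw [e]
  exact h

lemma Z_cont {k : ℕ} (α β : Fin k → ℝ) : Continuous (Z α β) := by
  unfold Z
  exact continuous_finsetProd _ fun j _ => (zp_cont _).mul (zm_cont _)

/-- the unshifted product is the `2k`-th power of `|ζ|` -/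
lemma Z_zero (k : ℕ) (t : ℝ) : Z (k := k) 0 0 t = ((z t ^ (2 * k) : ℝ) : ℂ) := by
  unfold Z
  simp only [Pi.zero_apply, Complex.ofReal_zero, add_zero]
  rw [Finset.prod_const, Finset.card_univ, Fintype.card_fin]
  have e : (1 / 2 - (t : ℂ) * Complex.I) = (starRingEnd ℂ) (1 / 2 + t * Complex.I) := by
    rw [map_add, map_mul, Complex.conj_I, Complex.conj_ofReal, map_div₀, map_one, map_ofNat]
    ring
  rw [e, riemannZeta_conj, Complex.mul_conj, Complex.normSq_eq_norm_sq, ← Complex.ofReal_pow, ← pow_mul]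
  rfl

lemma zk_cont (k : ℕ) : Continuous fun t : ℝ => z t ^ (2 * k) := z_cont.pow _

lemma zk_nonneg (k : ℕ) (t : ℝ) : 0 ≤ z t ^ (2 * k) := pow_nonneg (z_nonneg t) _

lemma unif_int {Ω : Type} [MeasurableSpace Ω] {P : Measure Ω} {T : ℝ} (hT : 0 < T) {N : ℕ} {V : Fin N → Ω → ℝ}
    (hV : Points P T V) {g : ℝ → ℝ} (hg : Continuous g) (j : Fin N) :
    ∫ ω, g (V j ω) ∂P = 1 / T * ∫ x in (0 : ℝ)..T, g x := by
  rw [← integral_map (hV.1 j).1.aemeasurable hg.aestronglyMeasurable, (hV.1 j).2, integral_smul_measure,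
    intervalIntegral.integral_of_le hT.le, integral_Icc_eq_integral_Ioc, ENNReal.toReal_inv,
    ENNReal.toReal_ofReal hT.le, smul_eq_mul, one_div]

lemma unif_mem {Ω : Type} [MeasurableSpace Ω] {P : Measure Ω} {T : ℝ} {N : ℕ} {V : Fin N → Ω → ℝ}
    (hV : Points P T V) (j : Fin N) : ∀ᵐ ω ∂P, V j ω ∈ Icc 0 T := by
  have h1 : ∀ᵐ x ∂(P.map (V j)), x ∈ Icc 0 T := by
    rw [(hV.1 j).2]
    exact Measure.ae_smul_measure (ae_restrict_mem measurableSet_Icc) _
  exact ae_of_ae_map (hV.1 j).1.aemeasurable h1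

/-- Chebyshev's inequality -/
lemma cheb {Ω : Type} [MeasurableSpace Ω] {P : Measure Ω} [IsProbabilityMeasure P] {T : ℝ} (hT : 0 < T) {N : ℕ}
    (hN : 1 ≤ N) {V : Fin N → Ω → ℝ} (hV : Points P T V)
    {g : ℝ → ℝ} (hg : Continuous g) {s : ℝ} (hs : ∀ x ∈ Icc 0 T, |g x| ≤ s) {η : ℝ}
    (hη : 0 < η) :
    P {ω | η ≤ |(∑ j, g (V j ω)) / N - 1 / T * ∫ x in (0 : ℝ)..T, g x|} ≤ ENNReal.ofReal (s ^ 2 / (N * η ^ 2)) := by
  have hNR : (1 : ℝ) ≤ N := by exact_mod_cast hN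
  have hN0 : (0 : ℝ) < N := by linarith
  set m : ℝ := 1 / T * ∫ x in (0 : ℝ)..T, g x with hm
  set Y : Fin N → Ω → ℝ := fun j ω => g (V j ω) with hY
  have hb : ∀ j, ∀ᵐ ω ∂P, ‖Y j ω‖ ≤ s := by
    intro j
    filter_upwards [unif_mem hV j] with ω hω
    rw [Real.norm_eq_abs]
    exact hs _ hω
  have hLp : ∀ j, MemLp (Y j) 2 P := fun j =>
    MemLp.of_bound (hg.measurable.comp (hV.1 j).1).aestronglyMeasurable s (hb j)
  have hmean : ∫ ω, (∑ j, Y j) ω ∂P = N * m := by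
    have e1 : ∫ ω, (∑ j, Y j) ω ∂P = ∑ j, ∫ ω, Y j ω ∂P := by
      simp only [Finset.sum_apply]
      exact integral_finsetSum _ fun j _ => (hLp j).integrable (by norm_num)
    rw [e1, Finset.sum_congr rfl fun j _ => unif_int hT hV hg j]
    rw [Finset.sum_const, Finset.card_univ, Fintype.card_fin, nsmul_eq_mul]
  have hvar : variance (∑ j, Y j) P ≤ N * s ^ 2 := by
    rw [IndepFun.variance_sum (fun j _ => hLp j) (fun j _ l _ hjl => (hV.2 hjl).comp hg.measurable hg.measurable)]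
    have h1 : ∀ j ∈ Finset.univ, variance (Y j) P ≤ s ^ 2 := by
      intro j _
      refine (variance_le_expectation_sq (μ := P) (hLp j).aestronglyMeasurable).trans ?_
      have h2 : ∫ ω, (Y j ^ 2) ω ∂P ≤ ∫ _, s ^ 2 ∂P := by
        refine integral_mono_ae (hLp j).integrable_sq (integrable_const _) ?_
        filter_upwards [hb j] with ω hω
        simp only [Pi.pow_apply]
        rw [Real.norm_eq_abs] at hω
        rw [← sq_abs]
        exact pow_le_pow_left₀ (abs_nonneg _) hω 2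
      simpa using h2
    refine (Finset.sum_le_sum h1).trans (le_of_eq ?_)
    simp
  have hSLp : MemLp (∑ j, Y j) 2 P := memLp_finsetSum' _ fun j _ => hLp j
  have h3 := meas_ge_le_variance_div_sq hSLp (mul_pos hN0 hη)
  rw [hmean] at h3
  have e2 : {ω | N * η ≤ |(∑ j, Y j) ω - N * m|} = {ω | η ≤ |(∑ j, g (V j ω)) / N - m|} := by
    ext ω
    simp only [mem_ofPred_eq, Finset.sum_apply, hY]
    have e3 : (∑ j, g (V j ω)) - N * m = N * ((∑ j, g (V j ω)) / N - m) := by field_simp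
    rw [e3, abs_mul, abs_of_pos hN0]
    exact ⟨fun h => le_of_mul_le_mul_left h hN0, fun h => mul_le_mul_of_nonneg_left h hN0.le⟩
  rw [e2] at h3
  refine h3.trans (ENNReal.ofReal_le_ofReal ?_)
  rw [div_le_div_iff₀ (by positivity) (by positivity)]
  calc variance (∑ j, Y j) P * (N * η ^ 2) ≤ N * s ^ 2 * (N * η ^ 2) :=
        mul_le_mul_of_nonneg_right hvar (by positivity)
    _ = s ^ 2 * (N * η) ^ 2 := by ring

/-- independent uniform points exist, with the probability of missing a set -/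
lemma exists_points {T : ℝ} (hT : 0 < T) (N : ℕ) : ∃ (P : Measure (Fin N → ℝ)) (_ : IsProbabilityMeasure P),
    Points P T (fun (j : Fin N) (θ : Fin N → ℝ) => θ j) ∧ ∀ S : Set ℝ, MeasurableSet S → ∀ a : ℝ, 0 ≤ a →
      ENNReal.ofReal a ≤ volume (S ∩ Icc 0 T) →
        P {θ | ∀ j, θ j ∉ S} ≤ ENNReal.ofReal (Real.exp (-(N * (a / T)))) := by
  set μ : Measure ℝ := (ENNReal.ofReal T)⁻¹ • volume.restrict (Icc 0 T) with hμ
  have hprob : IsProbabilityMeasure μ := by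
    refine ⟨?_⟩
    rw [hμ, Measure.smul_apply, Measure.restrict_apply_univ, Real.volume_Icc, smul_eq_mul]
    rw [show T - 0 = T by ring]
    exact ENNReal.inv_mul_cancel (by simpa using hT) ENNReal.ofReal_ne_top
  refine ⟨Measure.infinitePi fun _ : Fin N => μ, inferInstance, ⟨fun j => ⟨measurable_pi_apply j, ?_⟩, ?_⟩, ?_⟩
  · exact Measure.infinitePi_map_eval (fun _ : Fin N => μ) j
  · have h1 : iIndepFun (fun (j : Fin N) (θ : Fin N → ℝ) => θ j) (Measure.infinitePi fun _ : Fin N => μ) := by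
      have := iIndepFun_infinitePi (P := fun _ : Fin N => μ) (X := fun (_ : Fin N) (x : ℝ) => x)
        (fun _ => measurable_id)
      exact this
    intro j l hjl
    exact h1.indepFun hjl
  · intro S hS a ha haS
    rw [Measure.infinitePi_eq_pi]
    have e1 : {θ : Fin N → ℝ | ∀ j, θ j ∉ S} = Set.pi univ fun _ => Sᶜ := by
      ext θ
      simp [Set.mem_pi]
    rw [e1, Measure.pi_pi]
    simp only [Finset.prod_const, Finset.card_univ, Fintype.card_fin]
    have h1 : ENNReal.ofReal (a / T) ≤ μ S := by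
      rw [hμ, Measure.smul_apply, Measure.restrict_apply hS, smul_eq_mul]
      rw [ENNReal.ofReal_div_of_pos hT, ENNReal.div_eq_inv_mul]
      gcongr
    have h2 : μ Sᶜ ≤ ENNReal.ofReal (Real.exp (-(a / T))) := by
      have h3 : μ Sᶜ = 1 - μ S := prob_compl_eq_one_sub hS
      rw [h3]
      have h4 : (1 : ENNReal) - μ S ≤ 1 - ENNReal.ofReal (a / T) := tsub_le_tsub_left h1 _
      refine h4.trans ?_
      rw [show (1 : ENNReal) = ENNReal.ofReal 1 by simp, ← ENNReal.ofReal_sub _ (by positivity)]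
      refine ENNReal.ofReal_le_ofReal ?_
      have := Real.add_one_le_exp (-(a / T))
      linarith
    calc μ Sᶜ ^ N ≤ ENNReal.ofReal (Real.exp (-(a / T))) ^ N := pow_le_pow_left' h2 N
      _ = ENNReal.ofReal (Real.exp (-(a / T)) ^ N) := by rw [ENNReal.ofReal_pow (Real.exp_pos _).le]
      _ = _ := by
        rw [← Real.exp_nat_mul]
        congr 2
        ring

lemma pow_big {κ t a : ℝ} {k : ℕ} (h8 : 8 ≤ t) (hk : a ≤ κ * (2 * k)) : t ^ a ≤ (t ^ κ) ^ (2 * k) := by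
  have ht0 : 0 < t := by linarith
  rw [← Real.rpow_natCast, ← Real.rpow_mul ht0.le]
  refine Real.rpow_le_rpow_of_exponent_le (by linarith) ?_
  push_cast
  exact hk

lemma union_compl_contra {Ω : Type} [MeasurableSpace Ω] {P : Measure Ω} [IsProbabilityMeasure P] {A B : Set Ω}
    (hA : P A ≤ ENNReal.ofReal (1 / 4)) (hB : P B ≤ ENNReal.ofReal (1 / 4)) : ∃ ω, ω ∉ A ∧ ω ∉ B := by
  by_contra hno
  push Not at hno
  have h1 : (univ : Set Ω) ⊆ A ∪ B := by
    intro ω _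
    by_cases h : ω ∈ A
    · exact Or.inl h
    · exact Or.inr (hno ω h)
  have h2 : (1 : ENNReal) ≤ ENNReal.ofReal (1 / 4) + ENNReal.ofReal (1 / 4) := by
    calc (1 : ENNReal) = P univ := measure_univ.symm
      _ ≤ P (A ∪ B) := measure_mono h1
      _ ≤ P A + P B := measure_union_le _ _
      _ ≤ _ := add_le_add hA hB
  rw [← ENNReal.ofReal_add (by norm_num) (by norm_num), show (1 : ENNReal) = ENNReal.ofReal 1 by simp,
    ENNReal.ofReal_le_ofReal_iff (by norm_num)] at h2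
  norm_num at h2


/-- Chebyshev's inequality for complex valued functions -/
lemma chebC {Ω : Type} [MeasurableSpace Ω] {P : Measure Ω} [IsProbabilityMeasure P] {T : ℝ} (hT : 0 < T) {N : ℕ}
    (hN : 1 ≤ N) {V : Fin N → Ω → ℝ} (hV : Points P T V)
    {g : ℝ → ℂ} (hg : Continuous g) {s : ℝ} (hs : ∀ x ∈ Icc 0 T, ‖g x‖ ≤ s) {η : ℝ} (hη : 0 < η) :
    P {ω | η ≤ ‖(∑ j, g (V j ω)) / N - 1 / T * ∫ x in (0 : ℝ)..T, g x‖} ≤
      ENNReal.ofReal (8 * s ^ 2 / (N * η ^ 2)) := by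
  have hre := cheb hT hN hV (g := fun x => (g x).re) (Complex.continuous_re.comp hg)
    (fun x hx => (Complex.abs_re_le_norm _).trans (hs x hx)) (half_pos hη)
  have him := cheb hT hN hV (g := fun x => (g x).im) (Complex.continuous_im.comp hg)
    (fun x hx => (Complex.abs_im_le_norm _).trans (hs x hx)) (half_pos hη)
  have hNR : (1 : ℝ) ≤ N := by exact_mod_cast hN
  have hint : IntervalIntegrable g volume 0 T := hg.intervalIntegrable _ _
  have ire : (∫ x in (0 : ℝ)..T, g x).re = ∫ x in (0 : ℝ)..T, (g x).re := by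
    have := Complex.reCLM.intervalIntegral_comp_comm hint
    simpa using this.symm
  have iim : (∫ x in (0 : ℝ)..T, g x).im = ∫ x in (0 : ℝ)..T, (g x).im := by
    have := Complex.imCLM.intervalIntegral_comp_comm hint
    simpa using this.symm
  have hsub : {ω | η ≤ ‖(∑ j, g (V j ω)) / N - 1 / T * ∫ x in (0 : ℝ)..T, g x‖} ⊆
      {ω | η / 2 ≤ |(∑ j, (g (V j ω)).re) / N - 1 / T * ∫ x in (0 : ℝ)..T, (g x).re|} ∪
        {ω | η / 2 ≤ |(∑ j, (g (V j ω)).im) / N - 1 / T * ∫ x in (0 : ℝ)..T, (g x).im|} := by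
    intro ω hω
    by_contra hno
    simp only [mem_union, mem_ofPred_eq, not_or, not_le] at hno
    have h1 : η ≤ ‖(∑ j, g (V j ω)) / N - 1 / T * ∫ x in (0 : ℝ)..T, g x‖ := hω
    have h2 := Complex.norm_le_abs_re_add_abs_im ((∑ j, g (V j ω)) / N - 1 / T * ∫ x in (0 : ℝ)..T, g x)
    have e1 : ((∑ j, g (V j ω)) / (N : ℂ) - 1 / (T : ℂ) * ∫ x in (0 : ℝ)..T, g x).re =
        (∑ j, (g (V j ω)).re) / N - 1 / T * ∫ x in (0 : ℝ)..T, (g x).re := by
      rw [Complex.sub_re, show (N : ℂ) = ((N : ℝ) : ℂ) by push_cast; rfl, Complex.div_ofReal_re,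
        show (1 / (T : ℂ)) = ((1 / T : ℝ) : ℂ) by push_cast; rfl, Complex.re_ofReal_mul, ire, Complex.re_sum]
    have e2 : ((∑ j, g (V j ω)) / (N : ℂ) - 1 / (T : ℂ) * ∫ x in (0 : ℝ)..T, g x).im =
        (∑ j, (g (V j ω)).im) / N - 1 / T * ∫ x in (0 : ℝ)..T, (g x).im := by
      rw [Complex.sub_im, show (N : ℂ) = ((N : ℝ) : ℂ) by push_cast; rfl, Complex.div_ofReal_im,
        show (1 / (T : ℂ)) = ((1 / T : ℝ) : ℂ) by push_cast; rfl, Complex.im_ofReal_mul, iim, Complex.im_sum]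
    rw [e1, e2] at h2
    linarith [hno.1, hno.2]
  refine (measure_mono hsub).trans ((measure_union_le _ _).trans ((add_le_add hre him).trans ?_))
  rw [← ENNReal.ofReal_add (by positivity) (by positivity)]
  refine ENNReal.ofReal_le_ofReal (le_of_eq ?_)
  field_simp
  ring

/-- under the Lindelöf hypothesis the products are small -/
lemma Z_small (h : Adm 0) {k : ℕ} (α β : Fin k → ℝ) {e : ℝ} (he : 0 < e) : ∃ B : ℝ, 0 < B ∧ ∀ T : ℝ, 1 ≤ T →
    ∀ x ∈ Icc 0 T, ‖Z α β x‖ ≤ B * T ^ e := by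
  set e' : ℝ := e / (2 * (k + 1)) with he'
  have he'0 : 0 < e' := by positivity
  obtain ⟨B, hB⟩ := h e' he'0
  set A : ℝ := ∑ j, |α j| + ∑ j, |β j| with hA
  have hA0 : 0 ≤ A := by positivity
  set B₁ : ℝ := max B 1 * (2 + A) ^ e' with hB₁
  have hB1 : 1 ≤ B₁ := by
    have h1 : 1 ≤ (2 + A) ^ e' := Real.one_le_rpow (by linarith) he'0.le
    have h2 := le_max_right B 1
    nlinarith
  have hz : ∀ T : ℝ, 1 ≤ T → ∀ u : ℝ, |u| ≤ T + A → z u ≤ B₁ * T ^ e' := by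
    intro T hT u hu
    have h3 := hB u
    rw [zero_add] at h3
    have h4 : (1 + |u|) ^ e' ≤ (2 + A) ^ e' * T ^ e' := by
      rw [← Real.mul_rpow (by linarith) (by linarith)]
      refine Real.rpow_le_rpow (by positivity) ?_ he'0.le
      nlinarith
    have h5 : (0 : ℝ) ≤ (1 + |u|) ^ e' := by positivity
    calc z u ≤ B * (1 + |u|) ^ e' := h3
      _ ≤ max B 1 * (1 + |u|) ^ e' := mul_le_mul_of_nonneg_right (le_max_left _ _) h5
      _ ≤ max B 1 * ((2 + A) ^ e' * T ^ e') :=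
          mul_le_mul_of_nonneg_left h4 (by have := le_max_right B 1; linarith)
      _ = B₁ * T ^ e' := by rw [hB₁]; ring
  refine ⟨(B₁ * B₁) ^ k, by positivity, fun T hT x hx => ?_⟩
  have hT0 : 0 < T := by linarith
  unfold Z
  rw [norm_prod]
  have hα : ∀ j, |α j| ≤ A := fun j => by
    have h1 := Finset.single_le_sum (f := fun j => |α j|) (fun j _ => abs_nonneg _) (Finset.mem_univ j)
    have h2 : 0 ≤ ∑ j, |β j| := by positivity
    have h3 : |α j| ≤ ∑ j, |α j| := h1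
    linarith
  have hβ : ∀ j, |β j| ≤ A := fun j => by
    have h1 := Finset.single_le_sum (f := fun j => |β j|) (fun j _ => abs_nonneg _) (Finset.mem_univ j)
    have h2 : 0 ≤ ∑ j, |α j| := by positivity
    have h3 : |β j| ≤ ∑ j, |β j| := h1
    linarith
  have hfac : ∀ j ∈ Finset.univ, ‖riemannZeta (1 / 2 + (x + α j) * Complex.I) *
      riemannZeta (1 / 2 - (x + β j) * Complex.I)‖ ≤ (B₁ * T ^ e') * (B₁ * T ^ e') := by
    intro j _
    rw [norm_mul]
    have a1 : ‖riemannZeta (1 / 2 + (x + α j) * Complex.I)‖ = z (x + α j) := by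
      unfold z
      push_cast
      rfl
    have a2 : ‖riemannZeta (1 / 2 - (x + β j) * Complex.I)‖ = z (-(x + β j)) := by
      rw [zm_eq]
      rfl
    rw [a1, a2]
    have b1 : |x + α j| ≤ T + A := (abs_add_le _ _).trans (by
      rw [abs_of_nonneg hx.1]; linarith [hx.2, hα j])
    have b2 : |-(x + β j)| ≤ T + A := by
      rw [abs_neg]
      exact (abs_add_le _ _).trans (by rw [abs_of_nonneg hx.1]; linarith [hx.2, hβ j])
    exact mul_le_mul (hz T hT _ b1) (hz T hT _ b2) (z_nonneg _) (by positivity)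
  refine (Finset.prod_le_prod (fun j _ => norm_nonneg _) hfac).trans ?_
  rw [Finset.prod_const, Finset.card_univ, Fintype.card_fin]
  have e1 : ((B₁ * T ^ e') * (B₁ * T ^ e')) ^ k = (B₁ * B₁) ^ k * (T ^ e') ^ (2 * k) := by
    rw [pow_mul, ← mul_pow]
    congr 1
    ring
  rw [e1]
  refine mul_le_mul_of_nonneg_left ?_ (by positivity)
  rw [← Real.rpow_natCast, ← Real.rpow_mul hT0.le]
  refine Real.rpow_le_rpow_of_exponent_le hT ?_
  rw [he', div_mul_eq_mul_div, div_le_iff₀ (by positivity)]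
  push_cast
  nlinarith

/-- under the Lindelöf hypothesis the sample mean is close to the mean over `[0, T]` -/
lemma close_of (h : Adm 0) {k : ℕ} (α β : Fin k → ℝ) {δ η : ℝ} (hη : 0 < η) (hδ : 4 * η < δ) :
    ∃ T₀ : ℝ, ∀ (T : ℝ) (N : ℕ), T₀ ≤ T → T ^ δ ≤ N → Sampled α β (1 / T * ∫ x in (0 : ℝ)..T, Z α β x) η T N := by
  obtain ⟨B, hB0, hB⟩ := Z_small h α β (e := η / 4) (by positivity)
  have htop : Tendsto (fun T : ℝ => T ^ (η / 2)) atTop atTop := tendsto_rpow_atTop (by positivity)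
  obtain ⟨T₁, hT₁⟩ := eventually_atTop.1 ((htop.eventually_ge_atTop (8 * B ^ 2)).and
    (eventually_ge_atTop (1 : ℝ)))
  refine ⟨T₁, fun T N hT hN Ω _ P _ V hV => ?_⟩
  obtain ⟨h1, h2⟩ := hT₁ T hT
  have hT0 : 0 < T := by linarith
  have hδ0 : 0 < δ := by linarith
  have hN1 : (1 : ℝ) ≤ N := (Real.one_le_rpow h2 hδ0.le).trans hN
  have h3 := chebC hT0 (by exact_mod_cast hN1) hV (Z_cont α β) (hB T h2) (η := T ^ (-η)) (by positivity)
  unfold D
  refine h3.trans (ENNReal.ofReal_le_ofReal ?_)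
  have hTp : 0 < T ^ (-η) := by positivity
  have hN0 : (0 : ℝ) < N := by linarith
  rw [div_le_iff₀ (by positivity)]
  have e1 : (B * T ^ (η / 4)) ^ 2 = B ^ 2 * T ^ (η / 2) := by
    rw [mul_pow, ← Real.rpow_natCast (T ^ (η / 4)), ← Real.rpow_mul hT0.le]
    congr 2
    push_cast
    ring
  have e2 : T ^ (-η) * (T ^ δ * (T ^ (-η)) ^ 2) = T ^ (δ - 3 * η) := by
    rw [← Real.rpow_natCast (T ^ (-η)), ← Real.rpow_mul hT0.le, ← Real.rpow_add hT0, ← Real.rpow_add hT0]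
    congr 1
    push_cast
    ring
  have e3 : T ^ η ≤ T ^ (δ - 3 * η) := Real.rpow_le_rpow_of_exponent_le h2 (by linarith)
  have e4 : T ^ η = T ^ (η / 2) * T ^ (η / 2) := by
    rw [← Real.rpow_add hT0]
    congr 1
    ring
  calc 8 * (B * T ^ (η / 4)) ^ 2 = 8 * B ^ 2 * T ^ (η / 2) := by rw [e1]; ring
    _ ≤ T ^ (η / 2) * T ^ (η / 2) := mul_le_mul_of_nonneg_right h1 (by positivity)
    _ = T ^ η := e4.symm
    _ ≤ T ^ (δ - 3 * η) := e3
    _ = T ^ (-η) * (T ^ δ * (T ^ (-η)) ^ 2) := e2.symm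
    _ ≤ T ^ (-η) * (N * (T ^ (-η)) ^ 2) := by gcongr

lemma D_zero (k : ℕ) {N : ℕ} (v : Fin N → ℝ) : D (k := k) 0 0 v = (((∑ j, z (v j) ^ (2 * k)) / N : ℝ) : ℂ) := by
  unfold D
  simp only [Z_zero]
  push_cast
  rfl

/-- the asymptotic formulas imply the Lindelöf hypothesis -/
lemma lh_of_moments {R : MainTerms}
    (hR : ∀ k : ℕ, 1 ≤ k → ∃ C T₀ : ℝ, ∀ T : ℝ, T₀ ≤ T → ‖R k 0 0 T‖ ≤ C * T ^ 2)
    (h : ∀ k : ℕ, 1 ≤ k → ∃ C T₀ : ℝ, ∀ T : ℝ, T₀ ≤ T →
      ‖(∫ t in (0 : ℝ)..T, Z (k := k) 0 0 t) - R k 0 0 T‖ ≤ C * T ^ 2) : Adm 0 := by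
  by_contra hn
  obtain ⟨κ, δ₀, hκ, hδ₀, hbig⟩ := zlarge hn
  obtain ⟨k, hk⟩ := exists_nat_ge (3 / κ + 1)
  have hk1 : 1 ≤ k := by
    have h1 : (1 : ℝ) ≤ k := by
      have : 0 < 3 / κ := by positivity
      linarith
    exact_mod_cast h1
  have hk3 : 3 ≤ κ * (2 * k) := by
    have h1 : 3 / κ ≤ k := by linarith
    rw [div_le_iff₀ hκ] at h1
    nlinarith
  obtain ⟨C₁, T₁, h1⟩ := hR k hk1
  obtain ⟨C₂, T₂, h2⟩ := h k hk1
  obtain ⟨t, ht, h8, hvol⟩ := hbig (max (max T₁ T₂) (8 * (|C₁| + |C₂|) / δ₀))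
  set T : ℝ := t + 1 with hT
  have hT0 : 0 < T := by linarith
  have g1 := h1 T (by linarith [le_max_left T₁ T₂, le_max_left (max T₁ T₂) (8 * (|C₁| + |C₂|) / δ₀)])
  have g2 := h2 T (by linarith [le_max_right T₁ T₂, le_max_left (max T₁ T₂) (8 * (|C₁| + |C₂|) / δ₀)])
  have g3 : 8 * (|C₁| + |C₂|) / δ₀ < T := by
    linarith [le_max_right (max T₁ T₂) (8 * (|C₁| + |C₂|) / δ₀)]
  rw [div_lt_iff₀ hδ₀] at g3
  have h6 := low (zk_cont k) (zk_nonneg k) hT0 (y := (t ^ κ) ^ (2 * k)) (by positivity) (a := δ₀)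
    (S := {x : ℝ | |x - t| ≤ 1 ∧ t ^ κ ≤ z x}) (by
      rintro x ⟨hx1, hx2⟩
      rw [abs_le] at hx1
      exact ⟨pow_le_pow_left₀ (by positivity) hx2 _, by linarith, by linarith⟩) hvol
  have h7 : (T / 2) ^ (3 : ℝ) ≤ (t ^ κ) ^ (2 * k) := by
    refine le_trans ?_ (pow_big h8 hk3)
    exact Real.rpow_le_rpow (by positivity) (by linarith) (by norm_num)
  have h8' : (T / 2) ^ (3 : ℝ) = T ^ 3 / 8 := by
    rw [show (3 : ℝ) = ((3 : ℕ) : ℝ) by norm_num, Real.rpow_natCast]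
    ring
  have e0 : (∫ t in (0 : ℝ)..T, Z (k := k) 0 0 t) = ((∫ t in (0 : ℝ)..T, z t ^ (2 * k) : ℝ) : ℂ) := by
    simp only [Z_zero]
    exact intervalIntegral.integral_ofReal
  rw [e0] at g2
  have g4 : |∫ t in (0 : ℝ)..T, z t ^ (2 * k)| ≤ (|C₁| + |C₂|) * T ^ 2 := by
    have e1 : ((∫ t in (0 : ℝ)..T, z t ^ (2 * k) : ℝ) : ℂ) =
        (((∫ t in (0 : ℝ)..T, z t ^ (2 * k) : ℝ) : ℂ) - R k 0 0 T) + R k 0 0 T := by ring
    have e2 := congrArg norm e1
    rw [Complex.norm_real, Real.norm_eq_abs] at e2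
    rw [e2]
    refine (norm_add_le _ _).trans ?_
    have b1 : C₁ * T ^ 2 ≤ |C₁| * T ^ 2 := mul_le_mul_of_nonneg_right (le_abs_self _) (by positivity)
    have b2 : C₂ * T ^ 2 ≤ |C₂| * T ^ 2 := mul_le_mul_of_nonneg_right (le_abs_self _) (by positivity)
    linarith
  have g5 : T ^ 3 / 8 * δ₀ ≤ (|C₁| + |C₂|) * T ^ 2 := by
    calc T ^ 3 / 8 * δ₀ ≤ (t ^ κ) ^ (2 * k) * δ₀ := mul_le_mul_of_nonneg_right (h8' ▸ h7) hδ₀.le
      _ ≤ _ := h6
      _ ≤ _ := (le_abs_self _).trans g4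
  have g6 : 0 < T ^ 2 := by positivity
  nlinarith

/-- the sampled formulas imply the Lindelöf hypothesis -/
lemma lh_of_sampled {R : MainTerms} {δ : ℝ} (hδ : 1 < δ)
    (hR : ∀ k : ℕ, 1 ≤ k → ∃ C T₀ : ℝ, ∀ T : ℝ, T₀ ≤ T → ‖R k 0 0 T‖ ≤ C * T ^ 2)
    (h : ∀ k : ℕ, 1 ≤ k → ∃ η : ℝ, 0 < η ∧ ∃ T₀ : ℝ, ∀ T : ℝ, T₀ ≤ T →
      Sampled (k := k) 0 0 (R k 0 0 T / T) η T ⌈T ^ δ⌉₊) : Adm 0 := by
  by_contra hn
  obtain ⟨κ, δ₀, hκ, hδ₀, hbig⟩ := zlarge hn
  obtain ⟨k, hk⟩ := exists_nat_ge ((δ + 3) / κ + 1)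
  have hk1 : 1 ≤ k := by
    have h1 : (1 : ℝ) ≤ k := by
      have : 0 < (δ + 3) / κ := by positivity
      linarith
    exact_mod_cast h1
  have hk3 : δ + 3 ≤ κ * (2 * k) := by
    have h1 : (δ + 3) / κ ≤ k := by linarith
    rw [div_le_iff₀ hκ] at h1
    nlinarith
  obtain ⟨C₁, T₃, hC₁⟩ := hR k hk1
  obtain ⟨η, hη, T₀, hT₀⟩ := h k hk1
  have htop : Tendsto (fun T : ℝ => δ₀ * T ^ (δ - 1)) atTop atTop :=
    (tendsto_rpow_atTop (by linarith)).const_mul_atTop hδ₀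
  have htop2 : Tendsto (fun T : ℝ => T ^ η) atTop atTop := tendsto_rpow_atTop hη
  obtain ⟨T₁, hT₁⟩ := eventually_atTop.1 ((htop.eventually_ge_atTop 2).and
    ((eventually_ge_atTop (2 ^ (δ + 4) * (|C₁| + 2))).and ((eventually_ge_atTop T₀).and
      ((eventually_ge_atTop T₃).and (htop2.eventually_ge_atTop 4)))))
  obtain ⟨t, ht, h8, hvol⟩ := hbig T₁
  obtain ⟨h2, h5, h6, h7', h9'⟩ := hT₁ (t + 1) (by linarith)
  set T : ℝ := t + 1 with hT
  have hT0 : 0 < T := by linarith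
  have hT1 : 1 ≤ T := by linarith
  have hTη : T ^ (-η) ≤ 1 / 4 := by
    rw [Real.rpow_neg hT0.le, one_div]
    exact inv_anti₀ (by norm_num) h9'
  set N : ℕ := ⌈T ^ δ⌉₊ with hN
  have hN1 : T ^ δ ≤ N := Nat.le_ceil _
  have hTδ1 : 1 ≤ T ^ δ := Real.one_le_rpow hT1 (by linarith)
  have hN2 : (N : ℝ) ≤ 2 * T ^ δ := by
    have := (Nat.ceil_lt_add_one (show 0 ≤ T ^ δ by positivity)).le
    rw [← hN] at this
    linarith
  have hN0 : (0 : ℝ) < N := by linarith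
  obtain ⟨P, hP, hpts, hmiss⟩ := exists_points hT0 N
  set S : Set ℝ := {x : ℝ | |x - t| ≤ 1 ∧ t ^ κ ≤ z x} with hS
  have hSm : MeasurableSet S := by
    have m1 : MeasurableSet {x : ℝ | |x - t| ≤ 1} := measurableSet_le (by fun_prop) measurable_const
    have m2 : MeasurableSet {x : ℝ | t ^ κ ≤ z x} := measurableSet_le measurable_const z_cont.measurable
    exact m1.inter m2
  have hSI : S ∩ Icc 0 T = S := by
    refine inter_eq_left.2 ?_
    rintro x ⟨hx1, _⟩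
    rw [abs_le] at hx1
    exact ⟨by linarith, by linarith⟩
  have hm := hmiss S hSm δ₀ hδ₀.le (by rw [hSI]; exact hvol)
  have hexp : Real.exp (-(N * (δ₀ / T))) ≤ 1 / 4 := by
    have h7 : 2 ≤ N * (δ₀ / T) := by
      have e1 : T ^ δ * (δ₀ / T) = δ₀ * T ^ (δ - 1) := by
        rw [Real.rpow_sub_one hT0.ne']
        ring
      have := mul_le_mul_of_nonneg_right hN1 (show 0 ≤ δ₀ / T by positivity)
      linarith
    have h9 : Real.exp (-(N * (δ₀ / T))) ≤ Real.exp (-2) := Real.exp_le_exp.2 (by linarith)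
    refine h9.trans ?_
    have h10 : (2 : ℝ) ≤ Real.exp 1 := by
      have := Real.add_one_le_exp 1
      linarith
    have h11 : (4 : ℝ) ≤ Real.exp 2 := by
      rw [show (2 : ℝ) = 1 + 1 by norm_num, Real.exp_add]
      nlinarith
    rw [Real.exp_neg, one_div]
    exact inv_anti₀ (by norm_num) h11
  have hs := (hT₀ T h6 (Fin N → ℝ) P (fun j θ => θ j) hpts).trans (ENNReal.ofReal_le_ofReal hTη)
  obtain ⟨θ, hθ1, hθ2⟩ := union_compl_contra hs (hm.trans (ENNReal.ofReal_le_ofReal hexp))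
  have hθ2' : ∃ j, θ j ∈ S := by
    simp only [mem_ofPred_eq, not_forall, not_not] at hθ2
    exact hθ2
  obtain ⟨j, hj1, hj2⟩ := hθ2'
  refine hθ1 ?_
  change T ^ (-η) ≤ ‖D (k := k) 0 0 (fun j => θ j) - R k 0 0 T / T‖
  have hpow : (T / 2) ^ (δ + 3) ≤ z (θ j) ^ (2 * k) := by
    refine le_trans ?_ (pow_le_pow_left₀ (by positivity) hj2 (2 * k))
    refine le_trans ?_ (pow_big h8 hk3)
    exact Real.rpow_le_rpow (by positivity) (by linarith) (by linarith)
  have hDlow : T ^ 3 / 2 ^ (δ + 4) ≤ (∑ l, z (θ l) ^ (2 * k)) / N := by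
    rw [le_div_iff₀ hN0]
    have h7 : z (θ j) ^ (2 * k) ≤ ∑ l, z (θ l) ^ (2 * k) :=
      Finset.single_le_sum (f := fun l => z (θ l) ^ (2 * k)) (fun l _ => zk_nonneg k _) (Finset.mem_univ j)
    have e2 : (T / 2) ^ (δ + 3) = T ^ 3 / 2 ^ (δ + 4) * (2 * T ^ δ) := by
      rw [Real.div_rpow hT0.le (by norm_num), Real.rpow_add hT0, show δ + 4 = (δ + 3) + 1 by ring,
        Real.rpow_add_one (by norm_num : (2 : ℝ) ≠ 0), show T ^ (3 : ℝ) = T ^ 3 by
          rw [show (3 : ℝ) = ((3 : ℕ) : ℝ) by norm_num, Real.rpow_natCast]]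
      field_simp
    calc T ^ 3 / 2 ^ (δ + 4) * N ≤ T ^ 3 / 2 ^ (δ + 4) * (2 * T ^ δ) :=
          mul_le_mul_of_nonneg_left hN2 (by positivity)
      _ = (T / 2) ^ (δ + 3) := e2.symm
      _ ≤ _ := hpow.trans h7
  have h2p : (0 : ℝ) < 2 ^ (δ + 4) := by positivity
  have hbigD : (|C₁| + 2) * T ^ 2 ≤ (∑ l, z (θ l) ^ (2 * k)) / N := by
    refine le_trans ?_ hDlow
    rw [le_div_iff₀ h2p]
    calc (|C₁| + 2) * T ^ 2 * 2 ^ (δ + 4) = (2 ^ (δ + 4) * (|C₁| + 2)) * T ^ 2 := by ring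
      _ ≤ T * T ^ 2 := mul_le_mul_of_nonneg_right h5 (by positivity)
      _ = T ^ 3 := by ring
  have hRT : ‖R k 0 0 T / T‖ ≤ |C₁| * T ^ 2 := by
    rw [norm_div, Complex.norm_real, Real.norm_of_nonneg hT0.le, div_le_iff₀ hT0]
    have h12 := hC₁ T h7'
    have h13 : C₁ * T ^ 2 ≤ |C₁| * T ^ 2 := mul_le_mul_of_nonneg_right (le_abs_self _) (by positivity)
    have h14 : |C₁| * T ^ 2 ≤ |C₁| * T ^ 2 * T := le_mul_of_one_le_right (by positivity) hT1
    linarith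
  have hDn : ‖D (k := k) 0 0 (fun j => θ j)‖ = (∑ l, z (θ l) ^ (2 * k)) / N := by
    rw [D_zero, Complex.norm_real, Real.norm_of_nonneg]
    exact div_nonneg (Finset.sum_nonneg fun l _ => zk_nonneg k _) hN0.le
  have h15 := norm_sub_norm_le (D (k := k) 0 0 (fun j => θ j)) (R k 0 0 T / T)
  rw [hDn] at h15
  nlinarith

end proofs

/-- **All shifted moments and random samples.** Let `R` be main terms with `R_{k,0,0}(T) = O(T^(1+ε))`, `ε > 0` (those of the
problem have this property). Equivalent are: the asymptotic formulas with power saving for all `k ≥ 1`, `α`, `β`; for all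
`k`, `α`, `β` and `δ > 0` the sampled formulas with some power saving `T^(-η)` for all samples of `N ≥ T^δ` points; the sampled
formulas for all `k`, `α`, `β` with `N = ⌈T^δ⌉`, for one `δ > 1`. These statements imply the Lindelöf hypothesis. -/
theorem result (R : MainTerms)
    (hR : ∀ (k : ℕ), 1 ≤ k → ∀ ε : ℝ, 0 < ε → ∃ C T₀ : ℝ, ∀ T : ℝ, T₀ ≤ T → ‖R k 0 0 T‖ ≤ C * T ^ (1 + ε)) :
    List.TFAE [
      ∀ (k : ℕ), 1 ≤ k → ∀ α β : Fin k → ℝ, ∃ a : ℝ, a < 1 ∧ ∀ ε : ℝ, 0 < ε → ∃ C T₀ : ℝ, ∀ T : ℝ, T₀ ≤ T →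
        ‖(∫ t in (0 : ℝ)..T, Z α β t) - R k α β T‖ ≤ C * T ^ (a + ε),
      ∀ (k : ℕ), 1 ≤ k → ∀ (α β : Fin k → ℝ) (δ : ℝ), 0 < δ → ∃ η : ℝ, 0 < η ∧ ∃ T₀ : ℝ, ∀ T : ℝ, T₀ ≤ T → ∀ N : ℕ,
        T ^ δ ≤ N → Sampled α β (R k α β T / T) η T N,
      ∃ δ : ℝ, 1 < δ ∧ ∀ (k : ℕ), 1 ≤ k → ∀ α β : Fin k → ℝ, ∃ η : ℝ, 0 < η ∧ ∃ T₀ : ℝ, ∀ T : ℝ, T₀ ≤ T →
        Sampled α β (R k α β T / T) η T ⌈T ^ δ⌉₊] ∧
    ((∃ δ : ℝ, 1 < δ ∧ ∀ (k : ℕ), 1 ≤ k → ∀ α β : Fin k → ℝ, ∃ η : ℝ, 0 < η ∧ ∃ T₀ : ℝ, ∀ T : ℝ, T₀ ≤ T →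
        Sampled α β (R k α β T / T) η T ⌈T ^ δ⌉₊) →
      ∀ ε : ℝ, 0 < ε → ∃ B : ℝ, ∀ t : ℝ, ‖riemannZeta (1 / 2 + t * Complex.I)‖ ≤ B * (1 + |t|) ^ ε) := by
  have hR' : ∀ k : ℕ, 1 ≤ k → ∃ C T₀ : ℝ, ∀ T : ℝ, T₀ ≤ T → ‖R k 0 0 T‖ ≤ C * T ^ 2 := by
    intro k hk
    obtain ⟨C, T₀, h⟩ := hR k hk 1 one_pos
    refine ⟨C, T₀, fun T hT => ?_⟩
    have := h T hT
    rwa [show (1 : ℝ) + 1 = ((2 : ℕ) : ℝ) by norm_num, Real.rpow_natCast] at this
  constructor
  · tfae_have 1 → 2 := by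
      intro h k hk α β δ hδ
      have hLH : Pool.Agent.H983R4.LH.Adm 0 := by
        refine lh_of_moments hR' fun k hk => ?_
        obtain ⟨a, ha, h1⟩ := h k hk 0 0
        obtain ⟨C, T₀, h2⟩ := h1 (1 - a) (by linarith)
        refine ⟨|C|, max T₀ 1, fun T hT => ?_⟩
        have h3 := h2 T ((le_max_left _ _).trans hT)
        have hT1 : 1 ≤ T := (le_max_right _ _).trans hT
        rw [show a + (1 - a) = 1 by ring, Real.rpow_one] at h3
        have h4 : C * T ≤ |C| * T := mul_le_mul_of_nonneg_right (le_abs_self _) (by linarith)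
        have h5 : |C| * T ≤ |C| * T ^ 2 := mul_le_mul_of_nonneg_left (by nlinarith) (abs_nonneg _)
        linarith
      obtain ⟨a, ha, h1⟩ := h k hk α β
      obtain ⟨C, T₁, h2⟩ := h1 ((1 - a) / 2) (by linarith)
      set η₁ : ℝ := min (δ / 8) ((1 - a) / 4) with hη₁
      have hη₁0 : 0 < η₁ := lt_min (by positivity) (by linarith)
      have hη₁a : η₁ ≤ δ / 8 := min_le_left _ _
      have hη₁b : η₁ ≤ (1 - a) / 4 := min_le_right _ _
      obtain ⟨T₂, hT₂⟩ := close_of hLH α β (δ := δ) (η := η₁) hη₁0 (by linarith)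
      have htop : Tendsto (fun T : ℝ => T ^ (η₁ / 2)) atTop atTop := tendsto_rpow_atTop (by positivity)
      obtain ⟨T₃, hT₃⟩ := eventually_atTop.1 ((htop.eventually_ge_atTop (1 + |C|)).and
        (eventually_ge_atTop (1 : ℝ)))
      refine ⟨η₁ / 2, by positivity, max T₁ (max T₂ T₃), fun T hT N hN Ω _ P _ V hV => ?_⟩
      have g1 := h2 T ((le_max_left _ _).trans hT)
      have g2 := hT₂ T N (((le_max_left _ _).trans (le_max_right _ _)).trans hT) hN Ω P V hV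
      obtain ⟨g3, g4⟩ := hT₃ T (((le_max_right _ _).trans (le_max_right _ _)).trans hT)
      have hT0 : 0 < T := by linarith
      have hle : T ^ (-η₁) ≤ T ^ (-(η₁ / 2)) := Real.rpow_le_rpow_of_exponent_le g4 (by linarith)
      refine (measure_mono ?_).trans (g2.trans (ENNReal.ofReal_le_ofReal hle))
      intro ω hω
      have hω' : T ^ (-(η₁ / 2)) ≤ ‖D α β (fun j => V j ω) - R k α β T / T‖ := hω
      change T ^ (-η₁) ≤ ‖D α β (fun j => V j ω) - 1 / T * ∫ x in (0 : ℝ)..T, Z α β x‖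
      by_contra hlt
      push Not at hlt
      have g5 : ‖(1 / T * ∫ x in (0 : ℝ)..T, Z α β x : ℂ) - R k α β T / T‖ ≤ |C| * T ^ (-η₁) := by
        have e1 : (1 / T * ∫ x in (0 : ℝ)..T, Z α β x : ℂ) - R k α β T / T =
            ((∫ x in (0 : ℝ)..T, Z α β x) - R k α β T) / T := by ring
        rw [e1, norm_div, Complex.norm_real, Real.norm_of_nonneg hT0.le, div_le_iff₀ hT0]
        refine g1.trans ?_
        have e2 : T ^ (-η₁) * T = T ^ (1 - η₁) := by
          rw [← Real.rpow_add_one hT0.ne']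
          congr 1
          ring
        rw [mul_assoc, e2]
        have e3 : T ^ (a + (1 - a) / 2) ≤ T ^ (1 - η₁) := Real.rpow_le_rpow_of_exponent_le g4 (by linarith)
        have e4 : 0 ≤ T ^ (a + (1 - a) / 2) := by positivity
        calc C * T ^ (a + (1 - a) / 2) ≤ |C| * T ^ (a + (1 - a) / 2) :=
              mul_le_mul_of_nonneg_right (le_abs_self _) e4
          _ ≤ |C| * T ^ (1 - η₁) := mul_le_mul_of_nonneg_left e3 (abs_nonneg _)
      have g6 : ‖D α β (fun j => V j ω) - R k α β T / T‖ ≤ ‖D α β (fun j => V j ω) -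
          1 / T * ∫ x in (0 : ℝ)..T, Z α β x‖ + ‖(1 / T * ∫ x in (0 : ℝ)..T, Z α β x : ℂ) - R k α β T / T‖ :=
        norm_sub_le_norm_sub_add_norm_sub _ _ _
      have g7 : (1 + |C|) * T ^ (-η₁) ≤ T ^ (-(η₁ / 2)) := by
        have e5 : T ^ (-(η₁ / 2)) = T ^ (η₁ / 2) * T ^ (-η₁) := by
          rw [← Real.rpow_add hT0]
          congr 1
          ring
        rw [e5]
        exact mul_le_mul_of_nonneg_right g3 (by positivity)
      nlinarith
    tfae_have 2 → 3 := by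
      intro h
      refine ⟨2, by norm_num, fun k hk α β => ?_⟩
      obtain ⟨η, hη, T₀, hT₀⟩ := h k hk α β 2 (by norm_num)
      exact ⟨η, hη, T₀, fun T hT => hT₀ T hT _ (Nat.le_ceil _)⟩
    tfae_have 3 → 1 := by
      rintro ⟨δ, hδ, h⟩ k hk α β
      have hLH := lh_of_sampled hδ hR' fun k hk => h k hk 0 0
      obtain ⟨η, hη, T₁, hT₁⟩ := h k hk α β
      set η₁ : ℝ := min (δ / 8) η with hη₁
      have hη₁0 : 0 < η₁ := lt_min (by linarith) hη
      have hη₁a : η₁ ≤ δ / 8 := min_le_left _ _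
      have hη₁b : η₁ ≤ η := min_le_right _ _
      obtain ⟨T₂, hT₂⟩ := close_of hLH α β (δ := δ) (η := η₁) hη₁0 (by linarith)
      have htop : Tendsto (fun T : ℝ => T ^ η₁) atTop atTop := tendsto_rpow_atTop hη₁0
      obtain ⟨T₃, hT₃⟩ := eventually_atTop.1 ((htop.eventually_ge_atTop 4).and
        (eventually_ge_atTop (1 : ℝ)))
      refine ⟨1 - η₁, by linarith, fun ε hε => ⟨2, max T₁ (max T₂ T₃), fun T hT => ?_⟩⟩
      obtain ⟨g3, g4⟩ := hT₃ T (((le_max_right _ _).trans (le_max_right _ _)).trans hT)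
      have hT0 : 0 < T := by linarith
      have hle : T ^ (-η) ≤ T ^ (-η₁) := Real.rpow_le_rpow_of_exponent_le g4 (by linarith)
      have hq : T ^ (-η₁) ≤ 1 / 4 := by
        rw [Real.rpow_neg hT0.le, one_div]
        exact inv_anti₀ (by norm_num) g3
      obtain ⟨P, hP, hpts, _⟩ := exists_points hT0 ⌈T ^ δ⌉₊
      have g1 := hT₁ T ((le_max_left _ _).trans hT) _ P (fun j θ => θ j) hpts
      have g2 := hT₂ T ⌈T ^ δ⌉₊ (((le_max_left _ _).trans (le_max_right _ _)).trans hT) (Nat.le_ceil _) _ P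
        (fun j θ => θ j) hpts
      obtain ⟨θ, hθ1, hθ2⟩ := union_compl_contra (g1.trans (ENNReal.ofReal_le_ofReal (hle.trans hq)))
        (g2.trans (ENNReal.ofReal_le_ofReal hq))
      simp only [mem_ofPred_eq, not_le] at hθ1 hθ2
      have e1 : (∫ t in (0 : ℝ)..T, Z α β t) - R k α β T =
          T * ((1 / T * ∫ x in (0 : ℝ)..T, Z α β x : ℂ) - R k α β T / T) := by
        have hTC : (T : ℂ) ≠ 0 := by exact_mod_cast hT0.ne'
        field_simp
      have g5 : ‖(1 / T * ∫ x in (0 : ℝ)..T, Z α β x : ℂ) - R k α β T / T‖ ≤ 2 * T ^ (-η₁) := by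
        have g6 := norm_sub_le_norm_sub_add_norm_sub (1 / T * ∫ x in (0 : ℝ)..T, Z α β x : ℂ)
          (D α β (fun j => θ j)) (R k α β T / T)
        rw [norm_sub_rev (1 / T * ∫ x in (0 : ℝ)..T, Z α β x : ℂ) (D α β (fun j => θ j))] at g6
        linarith
      rw [e1, norm_mul, Complex.norm_real, Real.norm_of_nonneg hT0.le]
      have e2 : T * T ^ (-η₁) = T ^ (1 - η₁) := by
        rw [mul_comm, ← Real.rpow_add_one hT0.ne']
        congr 1
        ring
      have e3 : T ^ (1 - η₁) ≤ T ^ (1 - η₁ + ε) := Real.rpow_le_rpow_of_exponent_le g4 (by linarith)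
      calc T * ‖(1 / T * ∫ x in (0 : ℝ)..T, Z α β x : ℂ) - R k α β T / T‖ ≤ T * (2 * T ^ (-η₁)) :=
            mul_le_mul_of_nonneg_left g5 hT0.le
        _ = 2 * T ^ (1 - η₁) := by rw [← e2]; ring
        _ ≤ 2 * T ^ (1 - η₁ + ε) := mul_le_mul_of_nonneg_left e3 (by norm_num)
    tfae_finish
  · rintro ⟨δ, hδ, h⟩ ε hε
    obtain ⟨B, hB⟩ := lh_of_sampled hδ hR' (fun k hk => h k hk 0 0) ε hε
    refine ⟨B, fun t => ?_⟩
    have := hB t
    rwa [zero_add] at this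

end Pool.Agent.Results.MP_fa2474_nt.AllShiftsSampled
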