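import Mathlib
import Pool.Agent.Q85.Mom.Shift

set_option autoImplicit false

/-!
# The shifted moments are Lipschitz functions of the shifts, at the scale `1/log T`

The shifted moment of order `2k` over `[a, b]`, multiplied by `exp(i (log T)/2 Σ (α_j - β_j))`, is a
Lipschitz function of the `2k` shifts (in `[-1, 1]`), with the constant `(log T)/2 + C` times the
`2k`-th moment over a slightly larger interval.
-/

open Filter Topology Set MeasureTheory Complex

namespace Pool.Agent.Results.MP_fa2474_nt.LipschitzShifts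

/-- the product of the problem -/
noncomputable def Z {k : ℕ} (α β : Fin k → ℝ) (t : ℝ) : ℂ :=
  ∏ j, riemannZeta (1 / 2 + I * (t + α j)) * riemannZeta (1 / 2 - I * (t + β j))

/-- the shifted moment over `[a, b]`, with its phase -/
noncomputable def J {k : ℕ} (T a b : ℝ) (α β : Fin k → ℝ) : ℂ :=
  cexp (I * (Real.log T / 2) * ∑ j, (α j - β j)) * ∫ t in a..b, Z α β t

open Pool.Agent.Q85.Mom

/-- generalised Hölder inequality -/
lemma gh {ι : Type*} {n : ℕ} (hn : 0 < n) (s : Finset ι) (hcard : s.card = n)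
    {a b : ℝ} (hab : a ≤ b) {u : ι → ℝ → ℂ} (hu : ∀ i ∈ s, Continuous (u i)) {K : ι → ℝ}
    (hK : ∀ i ∈ s, 0 < K i) (h : ∀ i ∈ s, nrm n a b (u i) ≤ K i) :
    ∫ t in a..b, ∏ i ∈ s, ‖u i t‖ ≤ ∏ i ∈ s, K i := by
  have hn0 : (0 : ℝ) < n := by exact_mod_cast hn
  have hP : 0 < ∏ i ∈ s, K i := Finset.prod_pos hK
  have h1 : ∀ t, ∏ i ∈ s, ‖u i t‖ ≤
      (∏ i ∈ s, K i) * ∑ i ∈ s, (1 / (n : ℝ)) * (K i ^ (n : ℝ))⁻¹ * ‖u i t‖ ^ (n : ℝ) := by
    intro t
    have h2 := Real.geom_mean_le_arith_mean_weighted s (fun _ => 1 / (n : ℝ))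
      (fun i => (‖u i t‖ / K i) ^ (n : ℝ)) (fun i _ => by positivity) (by
        rw [Finset.sum_const, hcard, nsmul_eq_mul]
        field_simp) (fun i hi => by
        have := (hK i hi).le
        positivity)
    have h3 : ∏ i ∈ s, ((‖u i t‖ / K i) ^ (n : ℝ)) ^ (1 / (n : ℝ)) =
        (∏ i ∈ s, ‖u i t‖) / ∏ i ∈ s, K i := by
      rw [← Finset.prod_div_distrib]
      apply Finset.prod_congr rfl
      intro i hi
      have := (hK i hi).le
      rw [← Real.rpow_mul (by positivity), mul_one_div, div_self hn0.ne', Real.rpow_one]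
    rw [h3, div_le_iff₀ hP] at h2
    refine h2.trans (le_of_eq ?_)
    rw [mul_comm]
    congr 1
    apply Finset.sum_congr rfl
    intro i hi
    rw [Real.div_rpow (norm_nonneg _) (hK i hi).le, div_eq_mul_inv]
    ring
  have hc1 : Continuous fun t => ∏ i ∈ s, ‖u i t‖ :=
    continuous_finset_prod s fun i hi => (hu i hi).norm
  have hc2 : ∀ i ∈ s, Continuous fun t => (1 / (n : ℝ)) * (K i ^ (n : ℝ))⁻¹ * ‖u i t‖ ^ (n : ℝ) :=
    fun i hi => (cont_pow hn0.le (hu i hi)).const_mul _
  have h2 : ∫ t in a..b, ∏ i ∈ s, ‖u i t‖ ≤ ∫ t in a..b, (∏ i ∈ s, K i) *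
      ∑ i ∈ s, (1 / (n : ℝ)) * (K i ^ (n : ℝ))⁻¹ * ‖u i t‖ ^ (n : ℝ) := by
    apply intervalIntegral.integral_mono_on hab (hc1.intervalIntegrable _ _) _ fun t _ => h1 t
    exact ((continuous_finset_sum s hc2).const_mul _).intervalIntegrable _ _
  rw [intervalIntegral.integral_const_mul, intervalIntegral.integral_finset_sum
    (fun i hi => (hc2 i hi).intervalIntegrable _ _)] at h2
  refine h2.trans ?_
  have h3 : ∑ i ∈ s, ∫ t in a..b, (1 / (n : ℝ)) * (K i ^ (n : ℝ))⁻¹ * ‖u i t‖ ^ (n : ℝ) ≤ 1 := by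
    calc _ ≤ ∑ i ∈ s, 1 / (n : ℝ) := by
          apply Finset.sum_le_sum
          intro i hi
          rw [intervalIntegral.integral_const_mul, ← nrm_pow hn0 hab]
          have h4 := Real.rpow_le_rpow (nrm_nonneg hab _) (h i hi) hn0.le
          have h5 : 0 < K i ^ (n : ℝ) := Real.rpow_pos_of_pos (hK i hi) _
          calc 1 / (n : ℝ) * (K i ^ (n : ℝ))⁻¹ * nrm n a b (u i) ^ (n : ℝ)
              ≤ 1 / (n : ℝ) * (K i ^ (n : ℝ))⁻¹ * K i ^ (n : ℝ) :=
                mul_le_mul_of_nonneg_left h4 (by positivity)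
            _ = 1 / (n : ℝ) := by field_simp
      _ = 1 := by
          rw [Finset.sum_const, hcard, nsmul_eq_mul]
          field_simp
  calc _ ≤ (∏ i ∈ s, K i) * 1 := mul_le_mul_of_nonneg_left h3 hP.le
    _ = _ := mul_one _

/-- the two conjugation types -/
noncomputable def cj {k : ℕ} : Fin k ⊕ Fin k → ℂ → ℂ :=
  fun i w => Sum.elim (fun _ => w) (fun _ => (starRingEnd ℂ) w) i

lemma cj_norm {k : ℕ} (i : Fin k ⊕ Fin k) (w : ℂ) : ‖cj i w‖ = ‖w‖ := by
  cases i
  · rfl
  · exact Complex.norm_conj w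

lemma cj_sub {k : ℕ} (i : Fin k ⊕ Fin k) (v w : ℂ) : cj i v - cj i w = cj i (v - w) := by
  cases i
  · rfl
  · exact (map_sub (starRingEnd ℂ) v w).symm

lemma cj_cont {k : ℕ} (i : Fin k ⊕ Fin k) : Continuous (cj i) := by
  cases i
  · exact continuous_id
  · exact Complex.continuous_conj

/-- the integrand -/
noncomputable def G {k : ℕ} (lam : ℝ) (γ : Fin k ⊕ Fin k → ℝ) (t : ℝ) : ℂ :=
  ∏ i, cj i (ff lam (t + γ i))

lemma G_cont {k : ℕ} (lam : ℝ) (γ : Fin k ⊕ Fin k → ℝ) : Continuous (G lam γ) := by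
  unfold G
  exact continuous_finset_prod _ fun i _ => (cj_cont i).comp ((ff_cont lam).comp (by fun_prop))

lemma G_update {k : ℕ} (lam : ℝ) (γ : Fin k ⊕ Fin k → ℝ) (i : Fin k ⊕ Fin k) (x t : ℝ) :
    ‖G lam (Function.update γ i x) t - G lam γ t‖ =
      ∏ j, ‖(fun j t => if j = i then ff lam (t + x) - ff lam (t + γ i) else ff lam (t + γ j)) j t‖ := by
  unfold G
  rw [← Finset.mul_prod_erase Finset.univ (fun j => cj j (ff lam (t + Function.update γ i x j)))
    (Finset.mem_univ i), ← Finset.mul_prod_erase Finset.univ (fun j => cj j (ff lam (t + γ j)))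
    (Finset.mem_univ i), ← Finset.mul_prod_erase Finset.univ _ (Finset.mem_univ i)]
  have e1 : ∏ j ∈ Finset.univ.erase i, cj j (ff lam (t + Function.update γ i x j)) =
      ∏ j ∈ Finset.univ.erase i, cj j (ff lam (t + γ j)) := by
    apply Finset.prod_congr rfl
    intro j hj
    rw [Function.update_of_ne (Finset.ne_of_mem_erase hj)]
  rw [e1, ← sub_mul, norm_mul, Function.update_self, cj_sub, cj_norm, norm_prod]
  simp only [if_true]
  congr 1
  apply Finset.prod_congr rfl
  intro j hj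
  rw [if_neg (Finset.ne_of_mem_erase hj), cj_norm]

/-- from one coordinate to all -/
lemma all_coord {ι : Type*} [Fintype ι] [DecidableEq ι] {Φ : (ι → ℝ) → ℂ} {K : ℝ}
    (h : ∀ (γ : ι → ℝ) (i : ι) (x : ℝ), (∀ j, |γ j| ≤ 1) → |x| ≤ 1 →
      ‖Φ (Function.update γ i x) - Φ γ‖ ≤ |x - γ i| * K) (γ δ : ι → ℝ) (hγ : ∀ j, |γ j| ≤ 1)
    (hδ : ∀ j, |δ j| ≤ 1) : ‖Φ δ - Φ γ‖ ≤ (∑ i, |δ i - γ i|) * K := by
  have key : ∀ s : Finset ι, ‖Φ (s.piecewise δ γ) - Φ γ‖ ≤ (∑ i ∈ s, |δ i - γ i|) * K := by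
    intro s
    induction s using Finset.induction_on with
    | empty => simp
    | insert i s hi ih =>
      rw [Finset.piecewise_insert, Finset.sum_insert hi]
      have h1 := h (s.piecewise δ γ) i (δ i) (fun j => by
        by_cases hj : j ∈ s
        · rw [Finset.piecewise_eq_of_mem _ _ _ hj]; exact hδ j
        · rw [Finset.piecewise_eq_of_notMem _ _ _ hj]; exact hγ j) (hδ i)
      rw [Finset.piecewise_eq_of_notMem _ _ _ hi] at h1
      calc _ ≤ ‖Φ (Function.update (s.piecewise δ γ) i (δ i)) - Φ (s.piecewise δ γ)‖ +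
            ‖Φ (s.piecewise δ γ) - Φ γ‖ := norm_sub_le_norm_sub_add_norm_sub _ _ _
        _ ≤ |δ i - γ i| * K + (∑ i ∈ s, |δ i - γ i|) * K := add_le_add h1 ih
        _ = _ := by ring
  have h1 := key Finset.univ
  rwa [Finset.piecewise_univ] at h1

lemma fac1 (lam x : ℝ) : riemannZeta (1 / 2 + I * x) = cexp (-(lam * x * I)) * ff lam x := by
  unfold ff z
  rw [← mul_assoc, ← Complex.exp_add]
  have e : -(lam * x * I : ℂ) + ((lam * x : ℝ) : ℂ) * I = 0 := by
    push_cast
    ring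
  rw [e, Complex.exp_zero, one_mul, mul_comm I]

lemma fac2 (lam x : ℝ) : riemannZeta (1 / 2 - I * x) =
    cexp (lam * x * I) * (starRingEnd ℂ) (ff lam x) := by
  have e1 : (1 / 2 - I * x : ℂ) = (starRingEnd ℂ) (1 / 2 + (x : ℂ) * I) := by
    apply Complex.ext
    · simp
    · simp
  rw [e1, riemannZeta_conj]
  unfold ff z
  rw [map_mul, ← Complex.exp_conj, map_mul, Complex.conj_ofReal, Complex.conj_I, ← mul_assoc,
    ← Complex.exp_add]
  have e : (lam * x * I : ℂ) + ((lam * x : ℝ) : ℂ) * -I = 0 := by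
    push_cast
    ring
  rw [e, Complex.exp_zero, one_mul]

lemma Z_eq {k : ℕ} (lam : ℝ) (α β : Fin k → ℝ) (t : ℝ) :
    cexp (I * lam * ∑ j, (α j - β j)) * Z α β t = G lam (Sum.elim α β) t := by
  unfold Z G
  rw [Fintype.prod_sum_type, Complex.ofReal_sum, Finset.mul_sum, Complex.exp_sum, ← Finset.prod_mul_distrib,
    ← Finset.prod_mul_distrib]
  apply Finset.prod_congr rfl
  intro j _
  have h1 := fac1 lam (t + α j)
  have h2 := fac2 lam (t + β j)
  push_cast at h1 h2
  rw [h1, h2]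
  unfold cj
  simp only [Sum.elim_inl, Sum.elim_inr]
  have e : cexp (I * lam * ((α j - β j : ℝ) : ℂ)) * (cexp (-(lam * (t + α j) * I)) *
      cexp (lam * (t + β j) * I)) = 1 := by
    rw [← Complex.exp_add, ← Complex.exp_add, ← Complex.exp_zero]
    congr 1
    push_cast
    ring
  calc _ = (cexp (I * lam * ((α j - β j : ℝ) : ℂ)) * (cexp (-(lam * (t + α j) * I)) *
      cexp (lam * (t + β j) * I))) * (ff lam (t + α j) * (starRingEnd ℂ) (ff lam (t + β j))) := by
        ring
    _ = _ := by rw [e, one_mul]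

theorem result : ∃ C T₀ : ℝ, 0 < C ∧ ∀ (k : ℕ) (T a b : ℝ) (α β α' β' : Fin k → ℝ), 1 ≤ k →
    T₀ ≤ T → T + 1 ≤ a → a + C ^ (2 * k) ≤ b → b + 1 ≤ 8 * T →
    (∀ j, |α j| ≤ 1 ∧ |β j| ≤ 1 ∧ |α' j| ≤ 1 ∧ |β' j| ≤ 1) →
    ‖J T a b α' β' - J T a b α β‖ ≤
      (Real.log T / 2 + C) * (∑ j, |α' j - α j| + ∑ j, |β' j - β j|) *
        ∫ t in (a - 2 * Real.log T)..(b + 2 * Real.log T),
          ‖riemannZeta (1 / 2 + I * t)‖ ^ (2 * k) := by
  obtain ⟨C, T₀, hC, hT₀, hB⟩ := blk
  refine ⟨2 * C, T₀, by linarith, ?_⟩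
  intro k T a b α β α' β' hk hT ha hab hb hbd
  have hT3 : 3 ≤ T := hT₀.trans hT
  have hk0 : (1 : ℝ) ≤ k := by exact_mod_cast hk
  set ℓ : ℝ := Real.log T with hℓ
  have hℓ1 : 1 ≤ ℓ := by
    have h1 : Real.log (Real.exp 1) ≤ Real.log T := by
      apply Real.log_le_log (Real.exp_pos _)
      have := Real.exp_one_lt_d9
      linarith
    rwa [Real.log_exp] at h1
  have hnk : ((2 * k : ℕ) : ℝ) = 2 * (k : ℝ) := by push_cast; ring
  have hp : (1 : ℝ) ≤ ((2 * k : ℕ) : ℝ) := by rw [hnk]; linarith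
  have hp0 : (0 : ℝ) < ((2 * k : ℕ) : ℝ) := by linarith
  have hCp : C ^ (2 * k) ≤ (2 * C) ^ (2 * k) := pow_le_pow_left₀ (by linarith) (by linarith) _
  have hCp0 : 0 < C ^ (2 * k) := by positivity
  have hab' : a ≤ b := by linarith
  set p : ℝ := ((2 * k : ℕ) : ℝ) with hpdef
  obtain ⟨hn1, -, h1, -⟩ := hB p T (a - 1) (b + 1) (ℓ / 2) hp hT (by linarith)
    (by rw [hpdef, Real.rpow_natCast]; linarith) (by linarith) (by linarith) (by linarith)
  rw [show ℓ - ℓ / 2 = ℓ / 2 by ring, max_self] at h1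
  set lam : ℝ := ℓ / 2 with hlam
  set q : ℝ := lam + C with hq
  have hq0 : 0 < q := by positivity
  set N := nrm p (a - 2 * ℓ) (b + 2 * ℓ) z with hN
  have hmono : nrm p (a - 1 - ℓ) (b + 1 + ℓ) z ≤ N :=
    nrm_interval hp0 (by linarith) (by linarith) (by linarith) z_cont
  have hN0 : 0 < N := by linarith
  have hMN : ∫ t in (a - 2 * ℓ)..(b + 2 * ℓ), ‖riemannZeta (1 / 2 + I * t)‖ ^ (2 * k) = N ^ (2 * k) := by
    rw [hN, ← Real.rpow_natCast (nrm p (a - 2 * ℓ) (b + 2 * ℓ) z) (2 * k), ← hpdef,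
      nrm_pow hp0 (by linarith)]
    congr 1
    funext t
    unfold z
    rw [mul_comm I, hpdef, Real.rpow_natCast]
  rw [hMN]
  have hff1 : nrm p (a - 1) (b + 1) (ff1 lam) ≤ q * N := by
    rw [nrm_ff1]
    exact h1.trans (mul_le_mul_of_nonneg_left hmono hq0.le)
  have hffx : ∀ x : ℝ, |x| ≤ 1 → nrm p a b (fun t => ff lam (t + x)) ≤ N := by
    intro x hx
    have hxx := abs_le.1 hx
    rw [nrm_shift, nrm_ff]
    exact nrm_interval hp0 (by linarith) (by linarith) (by linarith) z_cont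
  have hshift : ∀ x y : ℝ, |x| ≤ 1 → |y| ≤ 1 → y ≤ x →
      nrm p a b (fun t => ff lam (t + x) - ff lam (t + y)) ≤ (x - y) * (q * N) := by
    intro x y hx hy hxy
    have hxx := abs_le.1 hx
    have hyy := abs_le.1 hy
    have h2 := shift_le hp (ff_der lam) (ff1_cont lam) hab' hxy
    refine h2.trans (mul_le_mul_of_nonneg_left ?_ (by linarith))
    exact (nrm_interval hp0 (by linarith) (by linarith) (by linarith) (ff1_cont lam)).trans hff1
  have hshift' : ∀ x y : ℝ, |x| ≤ 1 → |y| ≤ 1 →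
      nrm p a b (fun t => ff lam (t + x) - ff lam (t + y)) ≤ |x - y| * (q * N) := by
    intro x y hx hy
    rcases le_total y x with h | h
    · rw [abs_of_nonneg (by linarith)]
      exact hshift x y hx hy h
    · rw [abs_sub_comm, abs_of_nonneg (by linarith)]
      refine le_trans (le_of_eq ?_) (hshift y x hy hx h)
      apply nrm_congr hab'
      intro t _
      rw [norm_sub_rev]
  -- one coordinate
  have hstep : ∀ (γ : Fin k ⊕ Fin k → ℝ) (i : Fin k ⊕ Fin k) (x : ℝ), (∀ j, |γ j| ≤ 1) → |x| ≤ 1 →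
      ‖(∫ t in a..b, G lam (Function.update γ i x) t) - ∫ t in a..b, G lam γ t‖ ≤
        |x - γ i| * (q * N ^ (2 * k)) := by
    intro γ i x hγ hx
    rcases eq_or_ne x (γ i) with h | h
    · rw [h, Function.update_eq_self, sub_self, sub_self]
      simp
    have hne : 0 < |x - γ i| := abs_pos.2 (sub_ne_zero.2 h)
    rw [← intervalIntegral.integral_sub ((G_cont lam _).intervalIntegrable _ _)
      ((G_cont lam _).intervalIntegrable _ _)]
    refine (intervalIntegral.norm_integral_le_integral_norm hab').trans ?_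
    simp only [G_update]
    have h2 := gh (n := 2 * k) (by omega) (Finset.univ : Finset (Fin k ⊕ Fin k)) (by
        rw [Finset.card_univ, Fintype.card_sum, Fintype.card_fin]
        ring) hab'
      (u := fun j t => if j = i then ff lam (t + x) - ff lam (t + γ i) else ff lam (t + γ j))
      (K := fun j => if j = i then |x - γ i| * (q * N) else N) (fun j _ => by
        by_cases hj : j = i
        · simp only [hj, if_true]
          exact ((ff_cont lam).comp (by fun_prop)).sub ((ff_cont lam).comp (by fun_prop))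
        · simp only [if_neg hj]
          exact (ff_cont lam).comp (by fun_prop)) (fun j _ => by
        by_cases hj : j = i
        · simp only [hj, if_true]
          positivity
        · simp only [if_neg hj]
          exact hN0) (fun j _ => by
        by_cases hj : j = i
        · simp only [hj, if_true]
          exact hshift' x (γ i) hx (hγ i)
        · simp only [if_neg hj]
          exact hffx (γ j) (hγ j))
    refine h2.trans (le_of_eq ?_)
    rw [← Finset.mul_prod_erase Finset.univ _ (Finset.mem_univ i)]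
    simp only [if_true]
    have e : ∏ j ∈ Finset.univ.erase i, (if j = i then |x - γ i| * (q * N) else N) =
        N ^ (2 * k - 1) := by
      rw [Finset.prod_congr rfl (g := fun _ => N)]
      · rw [Finset.prod_const, Finset.card_erase_of_mem (Finset.mem_univ i), Finset.card_univ,
          Fintype.card_sum, Fintype.card_fin]
        congr 1
        omega
      · intro j hj
        rw [if_neg (Finset.ne_of_mem_erase hj)]
    rw [e]
    have e2 : N ^ (2 * k) = N * N ^ (2 * k - 1) := by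
      rw [← pow_succ']
      congr 1
      omega
    rw [e2]
    ring
  have hall := all_coord (Φ := fun γ => ∫ t in a..b, G lam γ t) hstep (Sum.elim α β)
    (Sum.elim α' β') (fun j => by
      cases j with
      | inl j => exact (hbd j).1
      | inr j => exact (hbd j).2.1) (fun j => by
      cases j with
      | inl j => exact (hbd j).2.2.1
      | inr j => exact (hbd j).2.2.2)
  have hJ : ∀ α β : Fin k → ℝ, J T a b α β = ∫ t in a..b, G lam (Sum.elim α β) t := by
    intro α β
    unfold J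
    rw [← intervalIntegral.integral_const_mul]
    congr 1
    funext t
    rw [← Z_eq lam α β t, hlam, hℓ]
    push_cast
    rfl
  rw [hJ, hJ]
  refine hall.trans ?_
  rw [Fintype.sum_sum_type]
  simp only [Sum.elim_inl, Sum.elim_inr]
  have hs0 : 0 ≤ ∑ j, |α' j - α j| + ∑ j, |β' j - β j| :=
    add_nonneg (Finset.sum_nonneg fun _ _ => abs_nonneg _) (Finset.sum_nonneg fun _ _ => abs_nonneg _)
  calc (∑ j, |α' j - α j| + ∑ j, |β' j - β j|) * (q * N ^ (2 * k))
      = q * (∑ j, |α' j - α j| + ∑ j, |β' j - β j|) * N ^ (2 * k) := by ring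
    _ ≤ _ := by
        apply mul_le_mul_of_nonneg_right _ (by positivity)
        apply mul_le_mul_of_nonneg_right _ hs0
        rw [hq, hlam]
        linarith

end Pool.Agent.Results.MP_fa2474_nt.LipschitzShifts
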