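import Pool.Agent.Results.MP_fa2474_nt.GenericShifts
import Pool.Agent.Q39.AE.Pert

/-!
# Shifted moments of zeta of every order: random perturbations of arbitrary shift vectors

The definitions of `Z` (the shifted product of `2k` zeta factors) and of `Q` (the full prediction of
the recipe) are those of the starting file `GenericShifts`, which bounds the volume of the set of the
exceptional shift vectors of `[0, T] ^ (2k)`. Here arbitrary shift vectors `h n` at the heights `T n`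
are perturbed: for almost every `x` the shift vectors `h n + U n x` satisfy the conclusion of Q1 with a
power saving for all large `n`, uniformly in the upper limit of integration.
-/

open MeasureTheory Filter Topology

namespace Pool.Agent.Results.MP_fa2474_nt.PerturbedShifts

open Pool.Agent.Results.MP_fa2474_nt.GenericShifts

theorem result (k : ℕ) : ∃ δ : ℝ, 0 < δ ∧ δ < 1 ∧
    ∀ (T U : ℕ → ℝ) (h : ℕ → Fin k ⊕ Fin k → ℝ), (∀ n, 1 ≤ T n) →
      (Summable fun n => T n ^ (-δ)) → (∀ n, T n ^ (1 - δ) ≤ U n ∧ U n ≤ T n) →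
      (∀ n i, 0 ≤ h n i ∧ h n i ≤ T n) →
      ∀ᵐ x : Fin k ⊕ Fin k → ℝ, (∀ i, 0 ≤ x i) → ∀ᶠ n in atTop, ∀ S : ℝ, 0 ≤ S → S ≤ T n →
        ‖∫ t in (0:ℝ)..S, (Z (fun i => h n i + U n * x i) t - Q (fun i => h n i + U n * x i) t)‖ ≤
          T n ^ (1 - δ) := by
  obtain ⟨-, δ, hδ, T₀, hmain⟩ := GenericShifts.result k
  -- the new exponent
  set η : ℝ := min (1 / 2) (δ / (2 * k + 2)) with hη
  have hk0 : (0 : ℝ) < 2 * k + 2 := by positivity
  have hη0 : 0 < η := lt_min (by norm_num) (by positivity)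
  have hη1 : η < 1 := (min_le_left _ _).trans_lt (by norm_num)
  have hη2 : η * (2 * k + 2) ≤ δ := by
    have := min_le_right (1 / 2 : ℝ) (δ / (2 * k + 2))
    rw [← hη, le_div_iff₀ hk0] at this
    exact this
  have hηδ : η < δ := by nlinarith
  refine ⟨η, hη0, hη1, ?_⟩
  intro T U h hT hsum hU hh
  have hT0 : ∀ n, 0 < T n := fun n => lt_of_lt_of_le one_pos (hT n)
  have hU0 : ∀ n, 0 < U n := fun n => lt_of_lt_of_le (Real.rpow_pos_of_pos (hT0 n) _) (hU n).1
  have hTlim : Tendsto T atTop atTop := Pool.Agent.Q39.AE.tendsto_of_summable hT hη0 hsum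
  have hcard : Fintype.card (Fin k ⊕ Fin k) = 2 * k := by
    rw [Fintype.card_sum, Fintype.card_fin]; ring
  set B : ℕ → ℝ → Set (Fin k ⊕ Fin k → ℝ) := fun _ X =>
    {γ : Fin k ⊕ Fin k → ℝ | (∀ i, 0 ≤ γ i ∧ γ i ≤ X) ∧
      ∃ S : ℝ, 0 ≤ S ∧ S ≤ X ∧ X ^ (1 - δ) < ‖∫ t in (0:ℝ)..S, (Z γ t - Q γ t)‖}
    with hBdef
  have hBv : ∀ X : ℝ, T₀ ≤ X → ∀ n : ℕ, volume (B n X) ≤
      ENNReal.ofReal (X ^ ((Fintype.card (Fin k ⊕ Fin k) : ℕ) - δ : ℝ)) := by
    intro X hX _
    rw [hcard]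
    push_cast
    exact hmain X hX
  -- one cube `[0, R] ^ (2k)`
  have key : ∀ R : ℕ, ∀ᵐ x : Fin k ⊕ Fin k → ℝ, (∀ i, 0 ≤ x i ∧ x i ≤ R) →
      ∀ᶠ n in atTop, ∀ S : ℝ, 0 ≤ S → S ≤ T n →
        ‖∫ t in (0:ℝ)..S, (Z (fun i => h n i + U n * x i) t - Q (fun i => h n i + U n * x i) t)‖ ≤
          T n ^ (1 - η) := by
    intro R
    set M : ℝ := (R : ℝ) + 1 with hM
    have hM1 : 1 ≤ M := by rw [hM]; have : (0 : ℝ) ≤ R := Nat.cast_nonneg R; linarith
    have hM0 : 0 < M := by linarith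
    have hBC := Pool.Agent.Q39.AE.pert B δ T₀ hBv η hη0 (by rw [hcard]; push_cast; nlinarith)
      T U h hT hsum (fun n => (hU n).1) M hM1
    -- the threshold
    have hthr : ∀ᶠ n in atTop, (M * T n) ^ (1 - δ) ≤ T n ^ (1 - η) := by
      have h1 : Tendsto (fun n => T n ^ (δ - η)) atTop atTop :=
        (tendsto_rpow_atTop (by linarith)).comp hTlim
      filter_upwards [h1.eventually_ge_atTop (M ^ (1 - δ))] with n hn
      rw [Real.mul_rpow hM0.le (hT0 n).le]
      calc M ^ (1 - δ) * T n ^ (1 - δ) ≤ T n ^ (δ - η) * T n ^ (1 - δ) :=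
            mul_le_mul_of_nonneg_right hn (Real.rpow_nonneg (hT0 n).le _)
        _ = T n ^ (1 - η) := by
            rw [← Real.rpow_add (hT0 n)]
            congr 1
            ring
    filter_upwards [hBC] with x hx hx0
    filter_upwards [hx, hthr] with n hn hn2 S hS0 hS
    by_contra hcon
    push Not at hcon
    apply hn
    refine ⟨fun i => ⟨?_, ?_⟩, S, hS0, ?_, lt_of_le_of_lt hn2 hcon⟩
    · have h1 := (hh n i).1
      have h2 := (hx0 i).1
      have h3 := hU0 n
      positivity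
    · have h1 := (hh n i).2
      have h2 : U n * x i ≤ T n * R :=
        mul_le_mul (hU n).2 (hx0 i).2 (hx0 i).1 (hT0 n).le
      rw [hM]
      linarith
    · have h1 := hT0 n
      nlinarith
  rw [← ae_all_iff] at key
  filter_upwards [key] with x hx hx0
  obtain ⟨R, hR⟩ := exists_nat_ge (∑ i, x i)
  refine hx R fun i => ⟨hx0 i, le_trans ?_ hR⟩
  exact Finset.single_le_sum (f := x) (fun j _ => hx0 j) (Finset.mem_univ i)

end Pool.Agent.Results.MP_fa2474_nt.PerturbedShifts
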